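import Mathlib

open scoped ENNReal

namespace Pool.Agent.Results.MP_6d826c_an.Cex

abbrev H := lp (fun _ : ℕ => ℝ) 2
abbrev C := lp (fun _ : ℕ => ℝ) ∞
noncomputable def t (n : ℕ) : ℝ := 1 - 1 / (n + 2)

theorem t_pos (n : ℕ) : 0 < t n := by
  have : (1 : ℝ) / (n + 2) < 1 := by
    rw [div_lt_one (by positivity)]; linarith [(Nat.cast_nonneg n : (0 : ℝ) ≤ n)]
  unfold t; linarith

theorem t_lt (n : ℕ) : t n < 1 := by
  have : (0 : ℝ) < 1 / (n + 2) := by positivity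
  unfold t; linarith

theorem t_mono (n : ℕ) : t n ≤ t (n + 1) := by
  have : (1 : ℝ) / ((n + 1 : ℕ) + 2) ≤ 1 / (n + 2) :=
    one_div_le_one_div_of_le (by positivity) (by push_cast; linarith)
  unfold t; linarith

def S : Submodule ℝ (WithLp 2 (H × C)) where
  carrier := {z | ∀ n, z.snd n = t n * z.fst n}
  add_mem' := fun {a b} ha hb n => by
    simp only [WithLp.add_fst, WithLp.add_snd, lp.coeFn_add, Pi.add_apply, ha n, hb n]; ring
  zero_mem' := fun n => by simp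
  smul_mem' := fun c a ha n => by
    simp only [WithLp.smul_fst, WithLp.smul_snd, lp.coeFn_smul, Pi.smul_apply, ha n, smul_eq_mul]
    ring

theorem closed : IsClosed (S : Set (WithLp 2 (H × C))) := by
  show IsClosed {z : WithLp 2 (H × C) | ∀ n, z.snd n = t n * z.fst n}
  simp only [Set.ofPred_forall]
  exact isClosed_iInter fun n => isClosed_eq
    ((lp.lipschitzWith_one_eval ∞ n).continuous.comp (WithLp.continuous_snd ..))
    (continuous_const.mul ((lp.lipschitzWith_one_eval 2 n).continuous.comp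
      (WithLp.continuous_fst ..)))

theorem nsq (z : S) : ‖z‖ ^ 2 = ‖z.1.fst‖ ^ 2 + ‖z.1.snd‖ ^ 2 := WithLp.prod_norm_sq_eq_of_L2 z.1

theorem ap_le (z : S) (n : ℕ) : ‖z.1.snd n‖ ≤ ‖z.1.fst n‖ := by
  rw [z.2 n, norm_mul, Real.norm_of_nonneg (t_pos n).le]
  exact mul_le_of_le_one_left (norm_nonneg _) (t_lt n).le

theorem s_le (z : S) : ‖z.1.snd‖ ≤ ‖z.1.fst‖ :=
  lp.norm_le_of_forall_le (norm_nonneg _) fun n =>
    (ap_le z n).trans (lp.norm_apply_le_norm (by simp) _ n)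

theorem s_lt (z : S) (hz : z ≠ 0) : ‖z.1.snd‖ ^ 2 < ‖z.1.fst‖ ^ 2 := by
  have h0 : 0 < ‖z.1.fst‖ := by
    by_contra h
    have h1 : ‖z.1.fst‖ = 0 := le_antisymm (not_lt.1 h) (norm_nonneg _)
    have h2 : ‖z.1.snd‖ = 0 := le_antisymm (h1 ▸ s_le z) (norm_nonneg _)
    have := nsq z
    rw [h1, h2] at this
    exact hz (by simpa using this)
  obtain ⟨m, hm⟩ : ∃ m, z.1.fst m ≠ 0 := by
    by_contra! h
    rw [show z.1.fst = 0 from lp.ext (funext h), norm_zero] at h0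
    exact lt_irrefl _ h0
  have a : ‖z.1.snd‖ ≤ max √(‖z.1.fst‖ ^ 2 - ‖z.1.fst m‖ ^ 2) (t m * ‖z.1.fst‖) := by
    refine lp.norm_le_of_forall_le (le_max_of_le_left (Real.sqrt_nonneg _)) fun n => ?_
    by_cases e : n = m
    · subst e
      refine le_max_of_le_right ?_
      rw [z.2 n, norm_mul, Real.norm_of_nonneg (t_pos n).le]
      exact mul_le_mul_of_nonneg_left (lp.norm_apply_le_norm (by simp) _ n) (t_pos n).le
    · refine le_max_of_le_left ((ap_le z n).trans (Real.le_sqrt_of_sq_le ?_))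
      have := lp.sum_rpow_le_norm_rpow (p := 2) (by simp) z.1.fst {n, m}
      rw [Finset.sum_pair e] at this
      simp only [ENNReal.toReal_ofNat, Real.rpow_two] at this
      linarith
  refine pow_lt_pow_left₀ (a.trans_lt (max_lt ?_ ?_)) (norm_nonneg _) two_ne_zero
  · rw [Real.sqrt_lt' h0]
    have : 0 < ‖z.1.fst m‖ ^ 2 := by positivity
    linarith
  · exact mul_lt_of_lt_one_left h0 (t_lt m)

noncomputable def w (n : ℕ) : S :=
  ⟨WithLp.toLp 2 (lp.single 2 n 1, lp.single ∞ n (t n)), fun k => by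
    by_cases h : k = n
    · subst h; simp
    · simp [lp.single_apply, h]⟩

theorem comb (n : ℕ) (x y : ℝ) :
    t n ^ 2 * (x ^ 2 + y ^ 2 + max |x| |y| ^ 2) ≤ ‖x • w n + y • w (n + 1)‖ ^ 2 ∧
      ‖x • w n + y • w (n + 1)‖ ^ 2 ≤ x ^ 2 + y ^ 2 + max |x| |y| ^ 2 := by
  set z := x • w n + y • w (n + 1)
  have e : ∀ k, z.1.fst k = if k = n then x else if k = n + 1 then y else 0 := fun k => by
    simp only [z, w, Submodule.coe_add, Submodule.coe_smul, WithLp.add_fst, WithLp.smul_fst,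
      lp.coeFn_add, lp.coeFn_smul, Pi.add_apply, Pi.smul_apply, WithLp.toLp_fst, lp.single_apply,
      Pi.single_apply, smul_eq_mul]
    split_ifs <;> first | omega | simp
  have a : ‖z.1.fst‖ ^ 2 = x ^ 2 + y ^ 2 := by
    have := lp.hasSum_norm (p := 2) (by simp) z.1.fst
    simp only [ENNReal.toReal_ofNat, Real.rpow_two] at this
    rw [this.unique (hasSum_sum_of_ne_finset_zero (s := {n, n + 1}) fun k hk => by
      simp only [Finset.mem_insert, Finset.mem_singleton, not_or] at hk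
      simp [e, hk.1, hk.2]), Finset.sum_pair (by omega)]
    simp [e]
  have b : ‖z.1.snd‖ ≤ max |x| |y| := by
    refine lp.norm_le_of_forall_le (le_max_of_le_left (abs_nonneg _)) fun k =>
      (ap_le z k).trans ?_
    rw [e]
    split_ifs <;> simp
  have c : t n * max |x| |y| ≤ ‖z.1.snd‖ := by
    have c1 := lp.norm_apply_le_norm (p := ∞) (by simp) z.1.snd n
    have c2 := lp.norm_apply_le_norm (p := ∞) (by simp) z.1.snd (n + 1)
    rw [z.2, e, norm_mul, Real.norm_of_nonneg (t_pos _).le] at c1 c2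
    simp only [if_true, Nat.add_eq_left, one_ne_zero, if_false, Real.norm_eq_abs] at c1 c2
    rw [mul_max_of_nonneg _ _ (t_pos n).le]
    exact max_le c1 ((mul_le_mul_of_nonneg_right (t_mono n) (abs_nonneg _)).trans c2)
  have m0 : 0 ≤ max |x| |y| := le_max_of_le_left (abs_nonneg _)
  have b2 := pow_le_pow_left₀ (norm_nonneg _) b 2
  have c2 := pow_le_pow_left₀ (mul_nonneg (t_pos n).le m0) c 2
  have d : t n ^ 2 ≤ 1 := pow_le_one₀ (t_pos n).le (t_lt n).le
  rw [nsq, a]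
  constructor
  · nlinarith [mul_le_mul_of_nonneg_right d (by positivity : 0 ≤ x ^ 2 + y ^ 2)]
  · linarith

def q (a b : Fin 4) : ℝ := if a = b then 0 else if a + 2 = b then 8 else 3

theorem q_bd (a b : Fin 4) : q a b ≤ 8 ∧ (a ≠ b → 3 ≤ q a b) := by
  unfold q; split_ifs <;> simp_all <;> norm_num

@[reducible] noncomputable def met : MetricSpace (Fin 4) where
  dist a b := √(q a b)
  dist_self a := by simp [q]
  dist_comm a b := by fin_cases a <;> fin_cases b <;> simp +decide [q]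
  dist_triangle a b c := by
    by_cases h : a = b
    · simp [h, q]
    by_cases h' : b = c
    · simp [h', q]
    have a1 := Real.sqrt_le_sqrt ((q_bd a b).2 h)
    have a2 := Real.sqrt_le_sqrt ((q_bd b c).2 h')
    have a3 : √(q a c) ≤ √3 + √3 := by
      refine Real.sqrt_le_iff.2 ⟨by positivity, ?_⟩
      nlinarith [(q_bd a c).1, Real.sq_sqrt (by norm_num : (0 : ℝ) ≤ 3)]
    linarith
  eq_of_dist_eq_zero {a b} h := by
    by_contra e
    have := (q_bd a b).2 e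
    rw [Real.sqrt_eq_zero'] at h
    linarith

theorem quadH (a b c d : H) : ‖a - c‖ ^ 2 + ‖b - d‖ ^ 2 ≤
    ‖a - b‖ ^ 2 + ‖b - c‖ ^ 2 + ‖c - d‖ ^ 2 + ‖d - a‖ ^ 2 := by
  have : 0 ≤ ‖(a - b) + (c - d)‖ ^ 2 := by positivity
  simp only [← real_inner_self_eq_norm_sq, inner_add_left, inner_add_right, inner_sub_left,
    inner_sub_right, real_inner_comm] at this ⊢
  linarith

theorem quadC (a b c d : C) : ‖a - c‖ ^ 2 ≤
    ‖a - b‖ ^ 2 + ‖b - c‖ ^ 2 + ‖c - d‖ ^ 2 + ‖d - a‖ ^ 2 := by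
  have h1 := pow_le_pow_left₀ (norm_nonneg _) (norm_sub_le_norm_sub_add_norm_sub a b c) 2
  have h2 := pow_le_pow_left₀ (norm_nonneg _) (norm_sub_le_norm_sub_add_norm_sub a d c) 2
  rw [norm_sub_rev a d, norm_sub_rev d c] at h2
  nlinarith [sq_nonneg (‖a - b‖ - ‖b - c‖), sq_nonneg (‖c - d‖ - ‖d - a‖)]

theorem result : ∃ (X : Type) (_ : NormedAddCommGroup X) (_ : NormedSpace ℝ X),
    CompleteSpace X ∧ ¬ FiniteDimensional ℝ X ∧
    (∀ ε : ℝ, 0 < ε → ε ≤ 2 → ∃ δ : ℝ, 0 < δ ∧ ∀ x y : X, ‖x‖ ≤ 1 → ‖y‖ ≤ 1 → ε ≤ ‖x - y‖ →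
      ‖(1 / 2 : ℝ) • (x + y)‖ ≤ 1 - δ) ∧
    ∃ (M : Type) (_ : MetricSpace M), Finite M ∧
      (∀ ε : ℝ, 0 < ε → ∃ f : M → X, ∀ a b,
        dist a b ≤ ‖f a - f b‖ ∧ ‖f a - f b‖ ≤ (1 + ε) * dist a b) ∧
      ¬ ∃ f : M → X, ∀ a b, ‖f a - f b‖ = dist a b := by
  refine ⟨S, inferInstance, inferInstance, closed.completeSpace_coe, fun hf => ?_,
    fun ε e0 e2 => ⟨ε ^ 2 / 16, by positivity, fun x y hx hy hxy => ?_⟩,
    Fin 4, met, inferInstance, fun ε e0 => ?_, ?_⟩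
  · refine Module.Finite.not_linearIndependent_of_infinite (R := ℝ) w ?_
    let L : S →ₗ[ℝ] (ℕ → ℝ) :=
      { toFun := fun z => z.1.fst, map_add' := fun _ _ => rfl, map_smul' := fun _ _ => rfl }
    refine LinearIndependent.of_comp L ?_
    convert Pi.linearIndependent_single_one ℕ ℝ using 1
    funext n; funext k; simp [L, w, lp.single_apply]
  · have a1 := nsq x
    have a2 := nsq y
    have a3 := nsq (x + y)
    have a4 := nsq (x - y)
    have a5 := pow_le_pow_left₀ (norm_nonneg _) (s_le (x - y)) 2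
    have a6 := parallelogram_law_with_norm ℝ x.1.fst y.1.fst
    have a7 := pow_le_pow_left₀ (norm_nonneg _) (norm_add_le x.1.snd y.1.snd) 2
    have a8 := pow_le_pow_left₀ e0.le hxy 2
    have b1 := pow_le_pow_left₀ (norm_nonneg _) hx 2
    have b2 := pow_le_pow_left₀ (norm_nonneg _) hy 2
    simp only [Submodule.coe_add, Submodule.coe_sub, WithLp.add_fst, WithLp.add_snd,
      WithLp.sub_fst, WithLp.sub_snd] at a3 a4 a5
    have c : ‖x + y‖ ^ 2 ≤ 4 - ε ^ 2 / 2 := by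
      nlinarith [sq_nonneg (‖x.1.snd‖ - ‖y.1.snd‖)]
    rw [norm_smul, Real.norm_of_nonneg (by norm_num)]
    have : ‖x + y‖ ≤ 2 - ε ^ 2 / 8 :=
      abs_le_of_sq_le_sq' (by nlinarith [sq_nonneg (ε ^ 2)]) (by nlinarith) |>.2
    linarith
  · obtain ⟨n, hn⟩ := exists_nat_gt (1 / ε)
    have h1 : 1 ≤ (1 + ε) * t n := by
      rw [div_lt_iff₀ e0] at hn
      have : (0 : ℝ) ≤ n := Nat.cast_nonneg n
      unfold t
      field_simp
      nlinarith
    let α : Fin 4 → ℝ := ![1, 0, -1, 0]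
    let β : Fin 4 → ℝ := ![0, 1, 0, -1]
    refine ⟨fun a => (t n)⁻¹ • (α a • w n + β a • w (n + 1)), fun a b => ?_⟩
    have e : (α a - α b) ^ 2 + (β a - β b) ^ 2 + max |α a - α b| |β a - β b| ^ 2 = q a b := by
      fin_cases a <;> fin_cases b <;> simp +decide [α, β, q] <;> norm_num
    obtain ⟨c1, c2⟩ := comb n (α a - α b) (β a - β b)
    rw [e] at c1 c2
    have t0 := t_pos n
    have q0 : 0 ≤ q a b := e ▸ by positivity
    rw [← smul_sub, add_sub_add_comm, ← sub_smul, ← sub_smul, norm_smul,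
      Real.norm_of_nonneg (by positivity)]
    show √(q a b) ≤ _ ∧ _ ≤ _ * √(q a b)
    have d1 := Real.sqrt_le_sqrt c1
    have d2 := Real.sqrt_le_sqrt c2
    rw [Real.sqrt_mul (by positivity), Real.sqrt_sq t0.le, Real.sqrt_sq (norm_nonneg _)] at d1
    rw [Real.sqrt_sq (norm_nonneg _)] at d2
    rw [le_inv_mul_iff₀ t0, inv_mul_le_iff₀ t0]
    exact ⟨d1, by nlinarith [Real.sqrt_nonneg (q a b)]⟩
  · rintro ⟨f, hf⟩
    have h : ∀ a b, ‖(f a).1.fst - (f b).1.fst‖ ^ 2 + ‖(f a).1.snd - (f b).1.snd‖ ^ 2 = q a b :=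
      fun a b => by
        have q0 : 0 ≤ q a b := by unfold q; split_ifs <;> norm_num
        rw [← Real.sq_sqrt q0]
        exact (nsq (f a - f b)).symm.trans (congrArg (· ^ 2) (hf a b))
    have l : ∀ a b, a ≠ b → ‖(f a).1.snd - (f b).1.snd‖ ^ 2 < ‖(f a).1.fst - (f b).1.fst‖ ^ 2 :=
      fun a b e => s_lt (f a - f b) fun z => e (met.eq_of_dist_eq_zero (by
        rw [← hf, z, norm_zero]))
    have a1 := quadH (f 0).1.fst (f 1).1.fst (f 2).1.fst (f 3).1.fst
    have a2 := quadC (f 0).1.snd (f 1).1.snd (f 2).1.snd (f 3).1.snd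
    have a3 := quadC (f 1).1.snd (f 2).1.snd (f 3).1.snd (f 0).1.snd
    have b1 : _ = (3 : ℝ) := h 0 1
    have b2 : _ = (3 : ℝ) := h 1 2
    have b3 : _ = (3 : ℝ) := h 2 3
    have b4 : _ = (3 : ℝ) := h 3 0
    have b5 : _ = (8 : ℝ) := h 0 2
    have b6 : _ = (8 : ℝ) := h 1 3
    linarith [l 0 2 (by decide), l 1 3 (by decide)]

end Pool.Agent.Results.MP_6d826c_an.Cex
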